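import Mathlib
import Pool.Agent.Run7.h576.Reps

/-!
# The structure of union-generating families with fewer than `(2 - o(1)) √(2^N)` members

Let `𝓕` be a union-generating family on `N` points with at most `c √(2^N)` members, `√2 ≤ c < 2`, and choose a
representation `S = f S ∪ g S` of every set `S`. There is a subfamily `𝓡` of `𝓕` with the following properties. The
number of sets whose representation is not inside `𝓡` is at most `(|𝓕| - |𝓡|)² / 4 + ε 2^N`, and at most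
`((c - √(3 - c²/2))² / 9 + ε) 2^N`. Every subfamily `𝓖` of `𝓡` with at least `ε |𝓕|` members is quasirandom: apart
from boundedly many exceptional sets `V`, the proportion of its members disjoint from `D` is close to
`2 ^ (-|D| / 2)` for all `D` which contain no exceptional set.
-/

namespace Pool.Agent.Results.MP_455262_co.HereditaryStructure

open Finset Run7.h576

theorem result (c : ℝ) (hc : √2 ≤ c) (hc' : c < 2) (ε : ℝ) (hε : 0 < ε) :
    ∃ C N₀ : ℕ, ∀ N : ℕ, N₀ ≤ N → ∀ 𝓕 : Finset (Finset (Fin N)), (𝓕.card : ℝ) ≤ c * √(2 ^ N) →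
      ∀ f g : Finset (Fin N) → Finset (Fin N), (∀ S, f S ∈ 𝓕 ∧ g S ∈ 𝓕 ∧ f S ∪ g S = S) →
      ∃ 𝓡 : Finset (Finset (Fin N)), 𝓡 ⊆ 𝓕 ∧
        (({S | ¬ (f S ∈ 𝓡 ∧ g S ∈ 𝓡)} : Finset (Finset (Fin N))).card : ℝ) ≤
          ((𝓕.card : ℝ) - 𝓡.card) ^ 2 / 4 + ε * 2 ^ N ∧
        (({S | ¬ (f S ∈ 𝓡 ∧ g S ∈ 𝓡)} : Finset (Finset (Fin N))).card : ℝ) ≤
          ((c - √(3 - c ^ 2 / 2)) ^ 2 / 9 + ε) * 2 ^ N ∧
        ∀ 𝓖 : Finset (Finset (Fin N)), 𝓖 ⊆ 𝓡 → ε * 𝓕.card ≤ 𝓖.card →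
          ∃ 𝓥 : Finset (Finset (Fin N)), 𝓥.card ≤ C ∧ (∀ V ∈ 𝓥, V.Nonempty) ∧
            ∀ D : Finset (Fin N), (∀ V ∈ 𝓥, ¬ V ⊆ D) →
              |(({A ∈ 𝓖 | Disjoint A D} : Finset (Finset (Fin N))).card : ℝ) -
                (1 / √2) ^ D.card * 𝓖.card| ≤ ε * 𝓖.card := by
  classical
  have hrt2 : √2 = 2 * rt := by
    have h1 : √2 ^ 2 = 2 := Real.sq_sqrt (by norm_num)
    have h2 := rt_sq
    have h3 := rt_pos
    have h4 : 0 ≤ √2 := Real.sqrt_nonneg _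
    nlinarith
  have hrt : 1 / √2 = rt := by
    rw [hrt2]
    have h3 := rt_pos
    have h2 := rt_sq
    rw [div_eq_iff (by positivity)]
    nlinarith
  rw [hrt]
  have hr0 := rt_pos
  have hr1 := rt_lt_one
  obtain ⟨d, hd⟩ : ∃ d : ℕ, rt ^ d < ε / 2 := exists_pow_lt_of_lt_one (by positivity) hr1
  obtain ⟨C, hC, N₀, hN₀⟩ := core_family hc hc' d (θ := ε) (τ := ε / 2) (δ := ε)
    hε (by positivity) hε
  obtain ⟨C', hC'⟩ : ∃ C' : ℕ, C ≤ C' := exists_nat_ge _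
  refine ⟨C', N₀, ?_⟩
  intro N hN 𝓕 hcard f g hfg
  obtain ⟨𝓡, h1, h2, h3, h4⟩ := hN₀ N hN 𝓕 hcard f g (fun S => (hfg S).1) (fun S => (hfg S).2.1)
    (fun S => (hfg S).2.2)
  refine ⟨𝓡, h1, h2, h3, ?_⟩
  intro 𝓖 hG hGcard
  obtain ⟨𝓥, a1, a2, a3⟩ := h4 𝓖 hG hGcard
  refine ⟨𝓥, ?_, a1, ?_⟩
  · have : (#𝓥 : ℝ) ≤ C' := a2.trans hC'
    exact_mod_cast this
  intro D hD
  rcases 𝓖.eq_empty_or_nonempty with rfl | hne
  · simp
  have hpos : (0 : ℝ) < #𝓖 := by exact_mod_cast hne.card_pos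
  have hq : |q id 𝓖 D - rt ^ #D| ≤ ε := by
    by_cases hDd : #D ≤ d
    · have := a3 D hDd hD
      linarith
    · push Not at hDd
      obtain ⟨D', hD'1, hD'2⟩ := Finset.exists_subset_card_eq hDd.le
      have h5 := a3 D' hD'2.le (fun V hV hVD => hD V hV (hVD.trans hD'1))
      rw [hD'2] at h5
      have h6 : q id 𝓖 D ≤ q id 𝓖 D' := by
        unfold q
        gcongr
      have h7 : rt ^ #D ≤ rt ^ d := pow_le_pow_of_le_one hr0.le hr1.le hDd.le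
      have h8 := q_nonneg id 𝓖 D
      have h9 : 0 ≤ rt ^ #D := pow_nonneg hr0.le _
      have h10 := (abs_le.1 h5).2
      rw [abs_le]
      constructor <;> linarith
  have h5 : (#{A ∈ 𝓖 | Disjoint A D} : ℝ) - rt ^ #D * #𝓖 = (q id 𝓖 D - rt ^ #D) * #𝓖 := by
    unfold q
    simp only [id]
    field_simp
  rw [h5, abs_mul, abs_of_pos hpos]
  gcongr

end Pool.Agent.Results.MP_455262_co.HereditaryStructure
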