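import Mathlib
import Pool.Agent.Run7.h576.Trace

/-!
# Small union-generating families generate by isolated members

Let `𝓕` be a union-generating family on `N` points with at most `c √(2^N)` members, `√2 ≤ c < 2`. Call a member
`A` flexible if there are `K` pairwise disjoint nonempty sets `D i` of size at most `d` with
`A ∆ D i ∈ 𝓕`. For a constant `K` and all but a proportion `(c - √(3 - c²/2))² / 9 + ε` of the sets `S`, no
representation of `S` uses a flexible member.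
-/

namespace Pool.Agent.Results.MP_455262_co.IsolatedMembers

open Finset Run7.h576

theorem result (c : ℝ) (hc : √2 ≤ c) (hc' : c < 2) (d : ℕ) (ε : ℝ) (hε : 0 < ε) :
    ∃ K N₀ : ℕ, ∀ N : ℕ, N₀ ≤ N → ∀ 𝓕 : Finset (Finset (Fin N)),
      (∀ S : Finset (Fin N), ∃ A ∈ 𝓕, ∃ B ∈ 𝓕, A ∪ B = S) →
      (𝓕.card : ℝ) ≤ c * √(2 ^ N) →
        (({S : Finset (Fin N) | ∃ A ∈ 𝓕, ∃ B ∈ 𝓕, A ∪ B = S ∧
          ∃ D : Fin K → Finset (Fin N),
            (∀ i, (D i).Nonempty ∧ (D i).card ≤ d ∧ symmDiff A (D i) ∈ 𝓕) ∧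
            ∀ i j, i ≠ j → Disjoint (D i) (D j)} :
          Set (Finset (Fin N))).ncard : ℝ) ≤
        ((c - √(3 - c ^ 2 / 2)) ^ 2 / 9 + ε) * 2 ^ N := by
  classical
  have h1r : 0 < 1 - rt := by linarith [rt_lt_one]
  obtain ⟨C, hC, N₁, hN₁⟩ := core_family hc hc' d (θ := ε / 32)
    (τ := (1 - rt) ^ d / 2 / 2 ^ d) (δ := ε / 4) (by positivity) (by positivity) (by positivity)
  obtain ⟨K₁, hK₁⟩ : ∃ K₁ : ℕ, 16 / ε ≤ K₁ := exists_nat_ge _
  obtain ⟨K, hK⟩ : ∃ K : ℕ, C + K₁ / ((1 - rt) ^ d / 2) ≤ K := exists_nat_ge _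
  refine ⟨K, N₁, ?_⟩
  intro N hN 𝓕 hgen hcard
  set p : Finset (Fin N) → Finset (Fin N) → Prop := fun A _ =>
    ∃ D : Fin K → Finset (Fin N), (∀ i, (D i).Nonempty ∧ (D i).card ≤ d ∧ symmDiff A (D i) ∈ 𝓕) ∧
      ∀ i j, i ≠ j → Disjoint (D i) (D j) with hpdef
  obtain ⟨f, g, hf, hg, hfg, hpref⟩ := exists_choice hgen p
  obtain ⟨𝓡, hR1, _, hR2, hR3⟩ := hN₁ N hN 𝓕 hcard f g hf hg hfg
  have hsq := two_pow_le_sq f g hf hg hfg
  have h𝓕pos : (0 : ℝ) < #𝓕 := by
    rcases Nat.eq_zero_or_pos (#𝓕) with h0 | h0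
    · rw [h0] at hsq
      have : (0 : ℝ) < 2 ^ N := by positivity
      norm_num at hsq
      linarith
    · exact_mod_cast h0
  have hm2 : (#𝓕 : ℝ) ^ 2 ≤ 4 * 2 ^ N := by
    have hc0 : 0 ≤ c := (Real.sqrt_nonneg 2).trans hc
    calc (#𝓕 : ℝ) ^ 2 ≤ (c * √(2 ^ N)) ^ 2 := by gcongr
      _ = c ^ 2 * 2 ^ N := by rw [mul_pow, Real.sq_sqrt (by positivity)]
      _ ≤ 4 * 2 ^ N := by
        gcongr
        nlinarith
  -- witnesses
  have hwit : ∀ A : Finset (Fin N), ∃ D : Fin K → Finset (Fin N), p A A →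
      (∀ i, (D i).Nonempty ∧ (D i).card ≤ d ∧ symmDiff A (D i) ∈ 𝓕) ∧
      ∀ i j, i ≠ j → Disjoint (D i) (D j) := by
    intro A
    by_cases h : p A A
    · obtain ⟨D, hD⟩ := h
      exact ⟨D, fun _ => hD⟩
    · exact ⟨fun _ => ∅, fun h' => absurd h' h⟩
  choose W hW using hwit
  -- the three kinds of bad sets
  set U₁ : Finset (Finset (Fin N)) := {S | ¬ (f S ∈ 𝓡 ∧ g S ∈ 𝓡)} with hU₁
  set U₂ : Finset (Finset (Fin N)) :=
    {S | p (f S) (f S) ∧ g S ∈ 𝓡 ∧ #{i | W (f S) i ⊆ g S} < K₁} with hU₂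
  set U₃ : Finset (Finset (Fin N)) :=
    {S | p (f S) (f S) ∧ K₁ ≤ #{i | W (f S) i ⊆ g S}} with hU₃
  have hsub : ({S : Finset (Fin N) | ∃ A ∈ 𝓕, ∃ B ∈ 𝓕, A ∪ B = S ∧ p A B} :
      Set (Finset (Fin N))) ⊆
      ((U₁ ∪ U₂ ∪ U₃ : Finset (Finset (Fin N))) : Set (Finset (Fin N))) := by
    intro S hS
    have hpS : p (f S) (f S) := hpref S hS
    rw [Finset.mem_coe, Finset.mem_union, Finset.mem_union]
    by_cases h1 : f S ∈ 𝓡 ∧ g S ∈ 𝓡
    · by_cases h2 : #{i | W (f S) i ⊆ g S} < K₁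
      · exact Or.inl (Or.inr (Finset.mem_filter.2 ⟨Finset.mem_univ _, hpS, h1.2, h2⟩))
      · exact Or.inr (Finset.mem_filter.2 ⟨Finset.mem_univ _, hpS, not_lt.1 h2⟩)
    · exact Or.inl (Or.inl (Finset.mem_filter.2 ⟨Finset.mem_univ _, h1⟩))
  have hU₂card : (#U₂ : ℝ) ≤ #𝓕 * (ε / 32 * #𝓕) := by
    have e1 : #U₂ = ∑ A ∈ 𝓕, #{S ∈ U₂ | f S = A} :=
      Finset.card_eq_sum_card_fiberwise (fun S _ => hf S)
    have e2 : ∀ A ∈ 𝓕, (#{S ∈ U₂ | f S = A} : ℝ) ≤ ε / 32 * #𝓕 := by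
      intro A _
      by_cases hA : p A A
      · have hfew := few_avoiding (by positivity) (by positivity) hR3 (W A)
          (fun i => ((hW A hA).1 i).2.1) (hW A hA).2 K₁
          (by rw [mul_div_cancel₀ _ (by positivity)]) (by
            have hpos : 0 < (1 - rt) ^ d / 2 := by positivity
            have : K₁ / ((1 - rt) ^ d / 2) ≤ (K : ℝ) - C := by linarith
            rwa [div_le_iff₀ hpos] at this)
        refine le_trans ?_ hfew
        have : #{S ∈ U₂ | f S = A} ≤ #{G ∈ 𝓡 | #{i | W A i ⊆ G} < K₁} := by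
          apply Finset.card_le_card_of_injOn g
          · intro S hS
            rw [Finset.mem_coe, Finset.mem_filter, hU₂, Finset.mem_filter] at hS
            obtain ⟨⟨_, _, h2, h3⟩, h4⟩ := hS
            rw [h4] at h3
            exact Finset.mem_filter.2 ⟨h2, h3⟩
          · intro S hS T hT hST
            rw [Finset.mem_coe, Finset.mem_filter] at hS hT
            rw [← hfg S, ← hfg T, hS.2, hT.2, hST]
        exact_mod_cast this
      · have : {S ∈ U₂ | f S = A} = ∅ := by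
          rw [Finset.filter_eq_empty_iff]
          intro S hS hSA
          rw [hU₂, Finset.mem_filter] at hS
          rw [hSA] at hS
          exact hA hS.2.1
        rw [this]
        simp only [Finset.card_empty, Nat.cast_zero]
        positivity
    rw [e1]
    push_cast
    refine (Finset.sum_le_sum e2).trans ?_
    rw [Finset.sum_const, nsmul_eq_mul]
  have hU₃card : (#U₃ : ℝ) * (K₁ + 1) ≤ #𝓕 * #𝓕 := by
    have e1 : #U₃ = ∑ B ∈ 𝓕, #{S ∈ U₃ | g S = B} :=
      Finset.card_eq_sum_card_fiberwise (fun S _ => hg S)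
    have e2 : ∀ B ∈ 𝓕, #{S ∈ U₃ | g S = B} * (K₁ + 1) ≤ #𝓕 := by
      intro B _
      apply card_unions_class B
      intro S hS
      rw [Finset.mem_filter, hU₃, Finset.mem_filter] at hS
      obtain ⟨⟨_, hp, hK⟩, hB⟩ := hS
      rw [hB] at hK
      obtain ⟨w1, w2⟩ := hW (f S) hp
      have hinj : Set.InjOn (fun i => symmDiff (f S) (W (f S) i))
          ({i | W (f S) i ⊆ B} : Finset (Fin K)) := by
        intro i _ j _ hij
        by_contra hne
        have hd := w2 i j hne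
        have : W (f S) i = W (f S) j := symmDiff_right_injective _ hij
        rw [this] at hd
        exact (w1 j).1.ne_empty (Finset.disjoint_self_iff_empty _ |>.1 hd)
      have hnot : f S ∉ ({i | W (f S) i ⊆ B} : Finset (Fin K)).image
          (fun i => symmDiff (f S) (W (f S) i)) := by
        intro h
        rw [Finset.mem_image] at h
        obtain ⟨i, _, hi⟩ := h
        exact (w1 i).1.ne_empty (symmDiff_eq_left.1 hi)
      have hsub : insert (f S) (({i | W (f S) i ⊆ B} : Finset (Fin K)).image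
          (fun i => symmDiff (f S) (W (f S) i))) ⊆ {F ∈ 𝓕 | F ∪ B = S} := by
        intro F hF
        rw [Finset.mem_insert, Finset.mem_image] at hF
        rw [Finset.mem_filter]
        rcases hF with rfl | ⟨i, hi, rfl⟩
        · exact ⟨hf S, by rw [← hB]; exact hfg S⟩
        · rw [Finset.mem_filter] at hi
          refine ⟨(w1 i).2.2, ?_⟩
          have h5 : symmDiff (f S) (W (f S) i) ∪ B = f S ∪ B := by
            ext x
            rw [Finset.mem_union, Finset.mem_symmDiff, Finset.mem_union]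
            have := @hi.2 x
            tauto
          rw [h5, ← hB]
          exact hfg S
      have := Finset.card_le_card hsub
      rw [Finset.card_insert_of_notMem hnot, Finset.card_image_of_injOn hinj] at this
      omega
    have e3 : #U₃ * (K₁ + 1) ≤ #𝓕 * #𝓕 := by
      rw [e1, Finset.sum_mul]
      refine (Finset.sum_le_sum e2).trans ?_
      rw [Finset.sum_const, smul_eq_mul]
    exact_mod_cast e3
  have hU₃card2 : (#U₃ : ℝ) ≤ ε / 4 * 2 ^ N := by
    have hK1 : 16 ≤ ε * (K₁ + 1) := by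
      rw [div_le_iff₀ hε] at hK₁
      nlinarith
    have h5 : (#U₃ : ℝ) * (K₁ + 1) ≤ (ε / 4 * 2 ^ N) * (K₁ + 1) := by
      calc (#U₃ : ℝ) * (K₁ + 1) ≤ #𝓕 * #𝓕 := hU₃card
        _ = (#𝓕 : ℝ) ^ 2 := by ring
        _ ≤ 4 * 2 ^ N := hm2
        _ ≤ (ε * (K₁ + 1)) / 4 * 2 ^ N := by
            gcongr
            linarith
        _ = _ := by ring
    exact le_of_mul_le_mul_right h5 (by positivity)
  have hU₂card2 : (#U₂ : ℝ) ≤ ε / 8 * 2 ^ N := by
    calc (#U₂ : ℝ) ≤ #𝓕 * (ε / 32 * #𝓕) := hU₂card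
      _ = ε / 32 * (#𝓕 : ℝ) ^ 2 := by ring
      _ ≤ ε / 32 * (4 * 2 ^ N) := by gcongr
      _ = _ := by ring
  have hfin := Set.ncard_le_ncard hsub (Finset.finite_toSet _)
  rw [Set.ncard_coe_finset] at hfin
  have hu : #(U₁ ∪ U₂ ∪ U₃) ≤ #U₁ + #U₂ + #U₃ := by
    refine (Finset.card_union_le _ _).trans (Nat.add_le_add_right ?_ _)
    exact Finset.card_union_le _ _
  have hfin2 : (({S : Finset (Fin N) | ∃ A ∈ 𝓕, ∃ B ∈ 𝓕, A ∪ B = S ∧ p A B} :
      Set (Finset (Fin N))).ncard : ℝ) ≤ #U₁ + #U₂ + #U₃ := by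
    have := hfin.trans hu
    exact_mod_cast this
  have hrho : rho c = (c - √(3 - c ^ 2 / 2)) ^ 2 / 9 := rfl
  rw [← hrho]
  have h2N : (0 : ℝ) < 2 ^ N := by positivity
  nlinarith

end Pool.Agent.Results.MP_455262_co.IsolatedMembers
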