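import Mathlib
import Pool.Agent.Run7.h576.Few

/-!
# The neighbour degrees of a union-generating family

The counting bound `2 · 2^N ≤ (1 + o(1)) |𝓕|²` for union-generating families on `N` points is improved with the
number of Hamming neighbours of the members: for a set `E` of boundedly many points, either
`|𝓕| ≥ (2 - o(1)) √(2^N)`, or `2 · 2^N ≤ (1 + o(1)) |𝓕| ∑_A w (d(A))`, where `d(A)` is the number (at most `K`) of
`x ∉ E` with `A ∆ {x} ∈ 𝓕`, and `w(j)` is the mean of `1 / (1 + Bin(j, 1 - 1/√2))`.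
-/

namespace Pool.Agent.Results.MP_455262_co.NeighbourDegrees

open Finset Run7.h576

/-- The mean of `1 / (1 + Z)` for a binomial variable `Z` with `j` trials of probability `1 - 1/√2`. -/
noncomputable def weight (j : ℕ) : ℝ := (1 - (1 / √2) ^ (j + 1)) / ((j + 1) * (1 - 1 / √2))

theorem result (K : ℕ) (ε : ℝ) (hε : 0 < ε) :
    ∃ C N₀ : ℕ, ∀ N : ℕ, N₀ ≤ N → ∀ 𝓕 : Finset (Finset (Fin N)),
      (∀ S : Finset (Fin N), ∃ A ∈ 𝓕, ∃ B ∈ 𝓕, A ∪ B = S) →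
      ∃ E : Finset (Fin N), E.card ≤ C ∧
        ((4 - ε) * 2 ^ N ≤ (𝓕.card : ℝ) ^ 2 ∨
         (2 - ε) * 2 ^ N ≤ 𝓕.card * ∑ A ∈ 𝓕, weight (min K
          ({x : Fin N | x ∉ E ∧ symmDiff A {x} ∈ 𝓕} : Finset (Fin N)).card)) := by
  classical
  -- the constants
  have hrt2 : √2 = 2 * rt := by
    have h1 : √2 ^ 2 = 2 := Real.sq_sqrt (by norm_num)
    have h2 := rt_sq
    have h3 := rt_pos
    have h4 : 0 ≤ √2 := Real.sqrt_nonneg _
    nlinarith
  have hrt : 1 / √2 = rt := by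
    rw [hrt2]
    have h3 := rt_pos
    have h2 := rt_sq
    rw [div_eq_iff (by positivity)]
    nlinarith
  have hweight : ∀ j, weight j = wK j := by
    intro j
    unfold weight wK
    rw [hrt]
  simp only [hweight]
  have hr0 := rt_pos
  have hr1 := rt_lt_one
  have h1r : 0 < 1 - rt := by linarith
  have hw0 : ∀ j, 0 ≤ wK j := by
    intro j
    unfold wK
    have : rt ^ (j + 1) ≤ 1 := pow_le_one₀ hr0.le hr1.le
    have : 0 ≤ 1 - rt ^ (j + 1) := by linarith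
    positivity
  -- reduce to small `ε`
  obtain ⟨e, he0, he1, heε⟩ : ∃ e : ℝ, 0 < e ∧ e ≤ 1 ∧ e ≤ ε :=
    ⟨min 1 ε, by positivity, min_le_left _ _, min_le_right _ _⟩
  have hcsq : √(4 - e) ^ 2 = 4 - e := Real.sq_sqrt (by linarith)
  have hc : √2 ≤ √(4 - e) := Real.sqrt_le_sqrt (by linarith)
  have hc' : √(4 - e) < 2 := by
    have h0 := Real.sqrt_nonneg (4 - e)
    nlinarith
  obtain ⟨C, hC, N₁, hN₁⟩ := core_family hc hc' K (θ := e / 64)
    (τ := e / 64 / 4 ^ K) (δ := e / 32) (by positivity) (by positivity) (by positivity)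
  obtain ⟨C', hC'⟩ : ∃ C' : ℕ, (K : ℝ) * C ≤ C' := exists_nat_ge _
  obtain ⟨N₂, hN₂⟩ : ∃ N₂ : ℕ, (64 / e) ^ 2 < (2 : ℝ) ^ N₂ :=
    pow_unbounded_of_one_lt _ (by norm_num)
  refine ⟨C', max N₁ N₂, ?_⟩
  intro N hN 𝓕 hgen
  have hNN1 : N₁ ≤ N := (le_max_left _ _).trans hN
  have hNN2 : N₂ ≤ N := (le_max_right _ _).trans hN
  set Q : ℝ := √(2 ^ N) with hQ
  have hQsq : Q ^ 2 = 2 ^ N := Real.sq_sqrt (by positivity)
  have hQpos : 0 < Q := Real.sqrt_pos.2 (by positivity)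
  have hQbig : 64 / e ≤ Q := by
    apply le_of_sq_le_sq _ hQpos.le
    rw [hQsq]
    exact hN₂.le.trans (pow_le_pow_right₀ (by norm_num) hNN2)
  have h2N : (0 : ℝ) < 2 ^ N := by positivity
  by_cases hlarge : (4 - e) * 2 ^ N ≤ (#𝓕 : ℝ) ^ 2
  · refine ⟨∅, by simp, Or.inl (le_trans ?_ hlarge)⟩
    gcongr
  push Not at hlarge
  -- the family is small
  have hcard : (#𝓕 : ℝ) ≤ √(4 - e) * Q := by
    apply le_of_sq_le_sq _ (by positivity)
    rw [mul_pow, hcsq, hQsq]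
    exact hlarge.le
  obtain ⟨f, g, hf, hg, hfg, -⟩ := exists_choice hgen (fun _ _ => False)
  obtain ⟨𝓡, hR1, hR2, -, hR3⟩ := hN₁ N hNN1 𝓕 hcard f g hf hg hfg
  set m : ℝ := (#𝓕 : ℝ) with hm
  set r : ℝ := (#𝓡 : ℝ) with hr
  have hm0 : 0 ≤ m := Nat.cast_nonneg _
  have hr0' : 0 ≤ r := Nat.cast_nonneg _
  have hrm : r ≤ m := by
    rw [hr, hm]
    exact_mod_cast Finset.card_le_card hR1
  have hm4 : m ^ 2 ≤ 4 * 2 ^ N := by
    refine hlarge.le.trans ?_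
    gcongr
    linarith
  have hmsmall : 2 * m ≤ e / 16 * 2 ^ N := by
    have h1 : m ≤ 2 * Q := hcard.trans (by gcongr)
    rw [div_le_iff₀ he0] at hQbig
    rw [← hQsq]
    nlinarith
  -- counting
  have hcount := two_mul_card_le (𝓡 := 𝓡) f g hf hg hfg
  have hdiag : #{S | f S = g S} ≤ #𝓕 := by
    apply Finset.card_le_card
    intro S hS
    rw [Finset.mem_filter] at hS
    have h1 := hfg S
    rw [← hS.2, Finset.union_self] at h1
    rw [← h1]
    exact hf S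
  have hall : (2 : ℝ) ^ N ≤ #{S | ¬ (f S ∈ 𝓡 ∧ g S ∈ 𝓡)} + m +
      #{S | f S ≠ g S ∧ f S ∈ 𝓡 ∧ g S ∈ 𝓡} := by
    have h1 : (univ : Finset (Finset (Fin N))) ⊆
        (({S | ¬ (f S ∈ 𝓡 ∧ g S ∈ 𝓡)} : Finset (Finset (Fin N))) ∪
        ({S | f S = g S} : Finset (Finset (Fin N)))) ∪
        ({S | f S ≠ g S ∧ f S ∈ 𝓡 ∧ g S ∈ 𝓡} : Finset (Finset (Fin N))) := by
      intro S _
      simp only [Finset.mem_union, Finset.mem_filter, Finset.mem_univ, true_and]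
      tauto
    have h2 := Finset.card_le_card h1
    have h3 := h2.trans ((Finset.card_union_le _ _).trans
      (Nat.add_le_add_right (Finset.card_union_le _ _) _))
    rw [Finset.card_univ, Fintype.card_finset, Fintype.card_fin] at h3
    have h4 : 2 ^ N ≤ #({S | ¬ (f S ∈ 𝓡 ∧ g S ∈ 𝓡)} : Finset (Finset (Fin N))) + #𝓕 +
        #({S | f S ≠ g S ∧ f S ∈ 𝓡 ∧ g S ∈ 𝓡} : Finset (Finset (Fin N))) := by omega
    rw [hm]
    exact_mod_cast h4
  have hcount' : 2 * (#{S | f S ≠ g S ∧ f S ∈ 𝓡 ∧ g S ∈ 𝓡} : ℝ) ≤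
      ∑ G ∈ 𝓡, (#(𝓕.image (fun F => F ∪ G)) : ℝ) := by exact_mod_cast hcount
  by_cases hrθ : e / 64 * m ≤ r
  swap
  · -- the core is small: impossible
    exfalso
    push Not at hrθ
    have hT : ∑ G ∈ 𝓡, (#(𝓕.image (fun F => F ∪ G)) : ℝ) ≤ e / 16 * 2 ^ N := by
      calc ∑ G ∈ 𝓡, (#(𝓕.image (fun F => F ∪ G)) : ℝ) ≤ ∑ G ∈ 𝓡, m := by
            apply Finset.sum_le_sum
            intro G _
            rw [hm]
            exact_mod_cast Finset.card_image_le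
        _ = r * m := by rw [Finset.sum_const, nsmul_eq_mul]
        _ ≤ (e / 64 * m) * m := by gcongr
        _ ≤ e / 64 * (4 * 2 ^ N) := by nlinarith
        _ = e / 16 * 2 ^ N := by ring
    have h1 : (m - r) ^ 2 ≤ m ^ 2 := by
      apply pow_le_pow_left₀ (by linarith)
      linarith
    nlinarith
  by_cases hr00 : r = 0
  · exfalso
    have hRe : 𝓡 = ∅ := by
      rw [← Finset.card_eq_zero]
      rw [hr] at hr00
      exact_mod_cast hr00
    rw [hRe, Finset.sum_empty] at hcount'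
    have h1 : (m - r) ^ 2 ≤ m ^ 2 := by
      apply pow_le_pow_left₀ (by linarith)
      linarith
    rw [hRe] at hall hR2
    nlinarith
  have hrpos : 0 < r := lt_of_le_of_ne hr0' (Ne.symm hr00)
  have hRne : 𝓡.Nonempty := by
    rw [← Finset.card_pos]
    rw [hr] at hrpos
    exact_mod_cast hrpos
  obtain ⟨𝓥, a1, a2, a3⟩ := hR3 𝓡 subset_rfl hrθ
  set E : Finset (Fin N) := ({V ∈ 𝓥 | #V ≤ K}).biUnion id with hE
  have hEcard : #E ≤ C' := by
    have h1 : (#E : ℝ) ≤ K * C := by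
      calc (#E : ℝ) ≤ ∑ V ∈ ({V ∈ 𝓥 | #V ≤ K}), (#(id V) : ℝ) := by
            exact_mod_cast Finset.card_biUnion_le
        _ ≤ ∑ V ∈ ({V ∈ 𝓥 | #V ≤ K}), (K : ℝ) := by
            apply Finset.sum_le_sum
            intro V hV
            exact_mod_cast (Finset.mem_filter.1 hV).2
        _ = (#({V ∈ 𝓥 | #V ≤ K}) : ℝ) * K := by rw [Finset.sum_const, nsmul_eq_mul]
        _ ≤ (#𝓥 : ℝ) * K := by
            gcongr
            exact Finset.filter_subset _ _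
        _ ≤ C * K := by gcongr
        _ = K * C := mul_comm _ _
    exact_mod_cast h1.trans hC'
  refine ⟨E, hEcard, Or.inr ?_⟩
  set dg : Finset (Fin N) → ℕ := fun A => min K
    ({x : Fin N | x ∉ E ∧ symmDiff A {x} ∈ 𝓕} : Finset (Fin N)).card with hdg
  -- directions
  have hdir : ∀ A : Finset (Fin N), ∃ D : Finset (Fin N),
      (∀ x ∈ D, x ∉ E ∧ symmDiff A {x} ∈ 𝓕) ∧ #D = dg A := by
    intro A
    obtain ⟨D, hD1, hD2⟩ := Finset.exists_subset_card_eq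
      (min_le_right K ({x : Fin N | x ∉ E ∧ symmDiff A {x} ∈ 𝓕} : Finset (Fin N)).card)
    exact ⟨D, fun x hx => (Finset.mem_filter.1 (hD1 hx)).2, hD2⟩
  choose W hW1 hW2 using hdir
  have hcls : ∀ G ∈ 𝓡, (#(𝓕.image (fun F => F ∪ G)) : ℝ) ≤
      ∑ F ∈ 𝓕, 1 / ((#(G ∩ W F) : ℝ) + 1) := by
    intro G _
    apply card_image_union_le 𝓕 G (fun F => #(G ∩ W F))
    intro F hF
    exact class_ge hF (fun x hx => (hW1 F x hx).2)
  have hinner : ∀ F ∈ 𝓕, ∑ G ∈ 𝓡, 1 / ((#(G ∩ W F) : ℝ) + 1) ≤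
      r * (wK (dg F) + e / 64) := by
    intro F hF
    have hcardW := hW2 F
    have hWK : #(W F) ≤ K := by rw [hcardW]; exact min_le_left _ _
    have hsub : ∀ D' ⊆ W F, |q id 𝓡 D' - rt ^ #D'| ≤ e / 64 / 4 ^ K := by
      intro D' hD'
      have hD'K : #D' ≤ K := (Finset.card_le_card hD').trans hWK
      apply a3 D' hD'K
      intro V hV hVD
      obtain ⟨x, hx⟩ := a1 V hV
      have hxE : x ∈ E := by
        rw [hE, Finset.mem_biUnion]
        exact ⟨V, Finset.mem_filter.2 ⟨hV, (Finset.card_le_card hVD).trans hD'K⟩, hx⟩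
      exact (hW1 F x (hD' (hVD hx))).1 hxE
    have h1 := sum_inv_trace hRne (by positivity) hsub
    refine h1.trans ?_
    rw [hcardW]
    have h2 : (4 : ℝ) ^ dg F * (e / 64 / 4 ^ K) ≤ e / 64 := by
      have h3 : (4 : ℝ) ^ dg F ≤ 4 ^ K := pow_le_pow_right₀ (by norm_num) (min_le_left _ _)
      calc (4 : ℝ) ^ dg F * (e / 64 / 4 ^ K) ≤ 4 ^ K * (e / 64 / 4 ^ K) := by gcongr
        _ = e / 64 := by field_simp
    gcongr
  set Ws : ℝ := ∑ A ∈ 𝓕, wK (dg A) with hWs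
  have hWs0 : 0 ≤ Ws := Finset.sum_nonneg (fun A _ => hw0 _)
  have hT : ∑ G ∈ 𝓡, (#(𝓕.image (fun F => F ∪ G)) : ℝ) ≤ r * Ws + e / 16 * 2 ^ N := by
    calc ∑ G ∈ 𝓡, (#(𝓕.image (fun F => F ∪ G)) : ℝ) ≤
          ∑ G ∈ 𝓡, ∑ F ∈ 𝓕, 1 / ((#(G ∩ W F) : ℝ) + 1) := Finset.sum_le_sum hcls
      _ = ∑ F ∈ 𝓕, ∑ G ∈ 𝓡, 1 / ((#(G ∩ W F) : ℝ) + 1) := Finset.sum_comm
      _ ≤ ∑ F ∈ 𝓕, r * (wK (dg F) + e / 64) := Finset.sum_le_sum hinner
      _ = r * Ws + e / 64 * (m * r) := by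
          rw [← Finset.mul_sum, Finset.sum_add_distrib, Finset.sum_const, nsmul_eq_mul]
          ring
      _ ≤ r * Ws + e / 16 * 2 ^ N := by
          have h3 : m * r ≤ m ^ 2 := by nlinarith
          have h4 : m * r ≤ 4 * 2 ^ N := h3.trans hm4
          nlinarith
  -- conclusion
  suffices hsuff : (2 - e) * 2 ^ N ≤ m * Ws by
    refine le_trans ?_ hsuff
    gcongr
  by_contra hcon
  push Not at hcon
  have hmpos : 0 < m := lt_of_lt_of_le hrpos hrm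
  have hfin : 2 * 2 ^ N ≤ r * Ws + (m - r) ^ 2 / 2 + e / 4 * 2 ^ N := by
    nlinarith
  set t : ℝ := r / m with ht
  have ht0 : 0 ≤ t := div_nonneg hr0' hm0
  have ht1 : t ≤ 1 := by rw [ht, div_le_one hmpos]; exact hrm
  have htr : r = t * m := (div_mul_cancel₀ r hmpos.ne').symm
  clear_value t m r
  have h5 : r * Ws ≤ t * ((2 - e) * 2 ^ N) := by
    calc r * Ws = t * (m * Ws) := by rw [htr]; ring
      _ ≤ _ := by gcongr
  have h6 : (m - r) ^ 2 / 2 ≤ (1 - t) * ((2 - e / 2) * 2 ^ N) := by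
    have h7 : (m - r) ^ 2 = (1 - t) ^ 2 * m ^ 2 := by rw [htr]; ring
    have h8 : (1 - t) ^ 2 ≤ 1 - t := by nlinarith
    calc (m - r) ^ 2 / 2 = (1 - t) ^ 2 * m ^ 2 / 2 := by rw [h7]
      _ ≤ (1 - t) * ((4 - e) * 2 ^ N) / 2 := by
          have h9 : 0 ≤ m ^ 2 := sq_nonneg _
          have h10 : (1 - t) ^ 2 * m ^ 2 ≤ (1 - t) * m ^ 2 := by gcongr
          have h11 : (1 - t) * m ^ 2 ≤ (1 - t) * ((4 - e) * 2 ^ N) := by
            have : 0 ≤ 1 - t := by linarith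
            gcongr
          linarith
      _ = _ := by ring
  have h12 : t * ((2 - e) * 2 ^ N) + (1 - t) * ((2 - e / 2) * 2 ^ N) ≤ (2 - e / 2) * 2 ^ N := by
    nlinarith [mul_nonneg ht0 h2N.le]
  have h13 : 0 < e * 2 ^ N := by positivity
  linarith

end Pool.Agent.Results.MP_455262_co.NeighbourDegrees
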