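import Mathlib
import Pool.Agent.Run7.h576.Window

/-!
# Every representation lies in a narrow window

Let `𝓕` be a union-generating family on `N` points with at most `c √(2^N)` members, `√2 ≤ c < 2`. For a set `X`
of points and all but a proportion `(c - √(3 - c²/2))² / 9 + ε` of the sets `S`, every representation
`S = A ∪ B` by members of `𝓕` has `|A ∩ X|` close to `(1 - 1/√2) |X|` and `|A ∩ B ∩ X|` close to
`(3/2 - √2) |X|`.
-/

namespace Pool.Agent.Results.MP_455262_co.RepresentationWindow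

open Finset Run7.h576

theorem result (c : ℝ) (hc : √2 ≤ c) (hc' : c < 2) (ε : ℝ) (hε : 0 < ε) :
    ∃ N₀ : ℕ, ∀ N : ℕ, N₀ ≤ N → ∀ 𝓕 : Finset (Finset (Fin N)),
      (∀ S : Finset (Fin N), ∃ A ∈ 𝓕, ∃ B ∈ 𝓕, A ∪ B = S) →
      (𝓕.card : ℝ) ≤ c * √(2 ^ N) →
      ∀ X : Finset (Fin N),
        (({S : Finset (Fin N) | ∃ A ∈ 𝓕, ∃ B ∈ 𝓕, A ∪ B = S ∧
          (ε * N < |((A ∩ X).card : ℝ) - (1 - 1 / √2) * X.card| ∨
           ε * N < |((A ∩ B ∩ X).card : ℝ) - (3 / 2 - √2) * X.card|)} :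
          Set (Finset (Fin N))).ncard : ℝ) ≤
        ((c - √(3 - c ^ 2 / 2)) ^ 2 / 9 + ε) * 2 ^ N := by
  classical
  obtain ⟨C, hC, N₁, hN₁⟩ := core_family hc hc' 1 (θ := ε / 64) (τ := ε / 8) (δ := ε / 4)
    (by positivity) (by positivity) (by positivity)
  obtain ⟨N₂, hN₂⟩ : ∃ N₂ : ℕ, 8 * C / ε < N₂ := exists_nat_gt _
  obtain ⟨N₃, hN₃⟩ : ∃ N₃ : ℕ, 16 / (ε ^ 2 * ε) < N₃ := exists_nat_gt _
  refine ⟨max N₁ (max N₂ N₃), ?_⟩
  intro N hN 𝓕 hgen hcard X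
  have hNN1 : N₁ ≤ N := (le_max_left _ _).trans hN
  have hNN2 : N₂ ≤ N := ((le_max_left _ _).trans (le_max_right _ _)).trans hN
  have hNN3 : N₃ ≤ N := ((le_max_right _ _).trans (le_max_right _ _)).trans hN
  have hNr2 : 8 * C / ε < N := hN₂.trans_le (by exact_mod_cast hNN2)
  have hNr3 : 16 / (ε ^ 2 * ε) < N := hN₃.trans_le (by exact_mod_cast hNN3)
  have hNpos : (0 : ℝ) < N := lt_of_le_of_lt (by positivity) hNr2
  have hrt2 : √2 = 2 * rt := by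
    have h1 : √2 ^ 2 = 2 := Real.sq_sqrt (by norm_num)
    have h2 := rt_sq
    have h3 := rt_pos
    have h4 : 0 ≤ √2 := Real.sqrt_nonneg _
    nlinarith
  have hrt : 1 / √2 = rt := by
    rw [hrt2]
    have h3 := rt_pos
    have h2 := rt_sq
    rw [div_eq_iff (by positivity)]
    nlinarith
  have hp : (3 / 2 - √2 : ℝ) = 2 * (1 - rt) - 1 / 2 := by rw [hrt2]; ring
  rw [hrt]
  -- representations which leave the window
  set p : Finset (Fin N) → Finset (Fin N) → Prop := fun A B =>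
    ε * N < |((A ∩ X).card : ℝ) - (1 - rt) * X.card| ∨
    ε * N < |((A ∩ B ∩ X).card : ℝ) - (3 / 2 - √2) * X.card| with hpdef
  obtain ⟨f, g, hf, hg, hfg, hpref⟩ := exists_choice hgen p
  obtain ⟨𝓡, hR1, _, hR2, hR3⟩ := hN₁ N hNN1 𝓕 hcard f g hf hg hfg
  have hsq := two_pow_le_sq f g hf hg hfg
  have h𝓕pos : (0 : ℝ) < #𝓕 := by
    rcases Nat.eq_zero_or_pos (#𝓕) with h0 | h0
    · rw [h0] at hsq
      have : (0 : ℝ) < 2 ^ N := by positivity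
      norm_num at hsq
      linarith
    · exact_mod_cast h0
  have hm2 : (#𝓕 : ℝ) ^ 2 ≤ 4 * 2 ^ N := by
    have hc0 : 0 ≤ c := (Real.sqrt_nonneg 2).trans hc
    calc (#𝓕 : ℝ) ^ 2 ≤ (c * √(2 ^ N)) ^ 2 := by gcongr
      _ = c ^ 2 * 2 ^ N := by rw [mul_pow, Real.sq_sqrt (by positivity)]
      _ ≤ 4 * 2 ^ N := by
        gcongr
        nlinarith
  set η : ℝ := ε / 4 with hη
  have hηN : ε / 8 * N + C < η * N := by
    rw [div_lt_iff₀ hε] at hNr2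
    rw [hη]
    linarith
  set 𝓑 : Finset (Finset (Fin N)) := {F ∈ 𝓡 | η * N < |(#(F ∩ X) : ℝ) - (1 - rt) * #X|} with h𝓑
  have h𝓑card : (#𝓑 : ℝ) ≤ 2 * (ε / 64 * #𝓕) :=
    few_unusual (by positivity) (by positivity) hR3 X hηN
  set 𝓒 : Finset (Finset (Fin N)) := {S | η * N < |(#(S ∩ X) : ℝ) - #X / 2|} with h𝓒
  have h𝓒card : (#𝓒 : ℝ) ≤ ε / 4 * 2 ^ N := by
    have h1 := card_dev X (a := η * N) (by positivity)
    have h2 : (1 : ℝ) ≤ ε / 4 * (ε ^ 2 * N) / 4 := by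
      rw [div_lt_iff₀ (by positivity)] at hNr3
      nlinarith
    have h3 : (#𝓒 : ℝ) * (η * N) ^ 2 ≤ N / 4 * 2 ^ N := h1
    have h4 : (#𝓒 : ℝ) * (η * N) ^ 2 ≤ (ε / 4 * 2 ^ N) * (η * N) ^ 2 := by
      refine h3.trans ?_
      have h5 : (ε / 4 * 2 ^ N) * (η * N) ^ 2 = (ε / 4 * (ε ^ 2 * N) / 4) * (N / 4 * 2 ^ N) := by
        rw [hη]; ring
      rw [h5]
      have h6 : (0 : ℝ) ≤ N / 4 * 2 ^ N := by positivity
      nlinarith
    exact le_of_mul_le_mul_right h4 (by positivity)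
  set U₁ : Finset (Finset (Fin N)) := {S | ¬ (f S ∈ 𝓡 ∧ g S ∈ 𝓡)} with hU₁
  set U₂ : Finset (Finset (Fin N)) := {S | f S ∈ 𝓑} with hU₂
  set U₃ : Finset (Finset (Fin N)) := {S | g S ∈ 𝓑} with hU₃
  have hsub : ({S : Finset (Fin N) | ∃ A ∈ 𝓕, ∃ B ∈ 𝓕, A ∪ B = S ∧ p A B} :
      Set (Finset (Fin N))) ⊆
      ((U₁ ∪ U₂ ∪ U₃ ∪ 𝓒 : Finset (Finset (Fin N))) : Set (Finset (Fin N))) := by
    intro S hS
    have hpS := hpref S hS
    by_contra hcon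
    rw [Finset.mem_coe, Finset.mem_union, Finset.mem_union, Finset.mem_union, not_or, not_or,
      not_or] at hcon
    obtain ⟨⟨⟨h1, h2⟩, h3⟩, h4⟩ := hcon
    rw [hU₁, Finset.mem_filter] at h1
    rw [hU₂, Finset.mem_filter] at h2
    rw [hU₃, Finset.mem_filter] at h3
    have h1 : f S ∈ 𝓡 ∧ g S ∈ 𝓡 := by
      by_contra h
      exact h1 ⟨Finset.mem_univ _, h⟩
    have h2' : |(#(f S ∩ X) : ℝ) - (1 - rt) * #X| ≤ η * N := by
      by_contra h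
      push Not at h
      exact h2 ⟨Finset.mem_univ _, Finset.mem_filter.2 ⟨h1.1, h⟩⟩
    have h3' : |(#(g S ∩ X) : ℝ) - (1 - rt) * #X| ≤ η * N := by
      by_contra h
      push Not at h
      exact h3 ⟨Finset.mem_univ _, Finset.mem_filter.2 ⟨h1.2, h⟩⟩
    have h4' : |(#(S ∩ X) : ℝ) - #X / 2| ≤ η * N := by
      by_contra h
      push Not at h
      exact h4 (Finset.mem_filter.2 ⟨Finset.mem_univ _, h⟩)
    have hηε : η * N ≤ ε * N := by
      rw [hη]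
      nlinarith
    rcases hpS with h | h
    · linarith
    · have e1 : #(f S ∩ g S ∩ X) + #(S ∩ X) = #(f S ∩ X) + #(g S ∩ X) := by
        have := Finset.card_inter_add_card_union (f S ∩ X) (g S ∩ X)
        rw [← Finset.union_inter_distrib_right, hfg S, ← Finset.inter_inter_distrib_right] at this
        exact this
      have e2 : (#(f S ∩ g S ∩ X) : ℝ) + #(S ∩ X) = #(f S ∩ X) + #(g S ∩ X) := by
        exact_mod_cast e1
      have e3 : (#(f S ∩ g S ∩ X) : ℝ) - (3 / 2 - √2) * #X =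
          ((#(f S ∩ X) : ℝ) - (1 - rt) * #X) + ((#(g S ∩ X) : ℝ) - (1 - rt) * #X) -
          ((#(S ∩ X) : ℝ) - #X / 2) := by
        rw [hp]
        linarith
      have e4 : |(#(f S ∩ g S ∩ X) : ℝ) - (3 / 2 - √2) * #X| ≤ 3 * (η * N) := by
        rw [e3]
        have a1 := abs_le.1 h2'
        have a2 := abs_le.1 h3'
        have a3 := abs_le.1 h4'
        rw [abs_le]
        constructor <;> linarith
      have : 3 * (η * N) ≤ ε * N := by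
        rw [hη]
        nlinarith
      linarith
  have hfin := Set.ncard_le_ncard hsub (Finset.finite_toSet _)
  rw [Set.ncard_coe_finset] at hfin
  have hu : #(U₁ ∪ U₂ ∪ U₃ ∪ 𝓒) ≤ #U₁ + #U₂ + #U₃ + #𝓒 := by
    refine (Finset.card_union_le _ _).trans (Nat.add_le_add_right ?_ _)
    refine (Finset.card_union_le _ _).trans (Nat.add_le_add_right ?_ _)
    exact Finset.card_union_le _ _
  have hfB : #U₂ ≤ #𝓑 * #𝓕 := card_rep_mem (𝓑 := 𝓑) f g hg hfg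
  have hgB : #U₃ ≤ #𝓑 * #𝓕 :=
    card_rep_mem (𝓑 := 𝓑) g f hf (fun S => by rw [Finset.union_comm]; exact hfg S)
  have hfin2 : (({S : Finset (Fin N) | ∃ A ∈ 𝓕, ∃ B ∈ 𝓕, A ∪ B = S ∧ p A B} :
      Set (Finset (Fin N))).ncard : ℝ) ≤
      #U₁ + #𝓑 * #𝓕 + #𝓑 * #𝓕 + #𝓒 := by
    have : ({S : Finset (Fin N) | ∃ A ∈ 𝓕, ∃ B ∈ 𝓕, A ∪ B = S ∧ p A B} :
      Set (Finset (Fin N))).ncard ≤
      #U₁ + #𝓑 * #𝓕 + #𝓑 * #𝓕 + #𝓒 := by
      omega
    exact_mod_cast this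
  have hBF : (#𝓑 : ℝ) * #𝓕 ≤ ε / 8 * 2 ^ N := by
    calc (#𝓑 : ℝ) * #𝓕 ≤ 2 * (ε / 64 * #𝓕) * #𝓕 := by gcongr
      _ = ε / 32 * (#𝓕 : ℝ) ^ 2 := by ring
      _ ≤ ε / 32 * (4 * 2 ^ N) := by gcongr
      _ = ε / 8 * 2 ^ N := by ring
  have hrho : rho c = (c - √(3 - c ^ 2 / 2)) ^ 2 / 9 := rfl
  rw [← hrho]
  have h2N : (0 : ℝ) < 2 ^ N := by positivity
  nlinarith

end Pool.Agent.Results.MP_455262_co.RepresentationWindow
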